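import Pool.Agent.helper62.VQ.SpecE
import Pool.Agent.helper9.RS.GRI
import Pool.Agent.helper62.RS.GLC
import Pool.Agent.helper92.RS.GMG
import Pool.Agent.helper83.RS.GLI

/-! Row vqe:REV (MP_07c750_an): the reversed flow. -/

set_option autoImplicit false

open scoped MatrixGroups ContDiff Topology UpperHalfPlane
open UpperHalfPlane MeasureTheory Filter Set

namespace Pool.Agent.VQE

open Pool.Agent.RS

noncomputable section

theorem REV_e0 (h : SL(2, ℝ)) (i : Fin 2) : (h * kJ).1 i 0 = -(h.1 i 1) := by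
  have h1 : (h * kJ).1 = h.1 * kJ.1 := rfl
  have h2 : kJ.1 0 0 = 0 := rfl
  have h3 : kJ.1 1 0 = -1 := rfl
  rw [h1, Matrix.mul_apply, Fin.sum_univ_two, h2, h3]
  ring

theorem REV_e1 (h : SL(2, ℝ)) (i : Fin 2) : (h * kJ).1 i 1 = h.1 i 0 := by
  have h1 : (h * kJ).1 = h.1 * kJ.1 := rfl
  have h2 : kJ.1 0 1 = 1 := rfl
  have h3 : kJ.1 1 1 = 0 := rfl
  rw [h1, Matrix.mul_apply, Fin.sum_univ_two, h2, h3]
  ring

theorem REV_rp (p : SL(2, ℝ) → ℝ) (h : SL(2, ℝ)) : rp p (h * kJ) = p h := by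
  unfold rp
  rw [mul_inv_cancel_right]

theorem REV_rq (q : SL(2, ℝ) → ℝ) (h : SL(2, ℝ)) : rq q (h * kJ) = -q h := by
  unfold rq
  rw [mul_inv_cancel_right]

theorem REV_fld (h1 : NMB_stmt) (δ : ℝ) (p q : SL(2, ℝ) → ℝ) (hF : Fld δ p q) : Fld δ (rp p) (rq q) := by
  obtain ⟨-, -, -, hJ, -⟩ := h1
  have e1 : ∀ g D : SL(2, ℝ), g * D * kJ⁻¹ = g * kJ⁻¹ * (kJ * D * kJ⁻¹) := by
    intro g D
    group
  have e2 : ∀ g E D : SL(2, ℝ), g * E * D * kJ⁻¹ = g * kJ⁻¹ * (kJ * E * kJ⁻¹) * (kJ * D * kJ⁻¹) := by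
    intro g E D
    group
  refine ⟨fun g => hF.p0 _, fun g => ?_, fun g D => ?_, fun g D => ?_, fun g E D hD => ?_, fun g E D hD => ?_⟩
  · unfold rq
    rw [abs_neg]
    exact hF.q0 _
  · unfold rp
    rw [e1, ← hJ D]
    exact hF.p1 _ _
  · unfold rq
    rw [e1, ← hJ D]
    have h := hF.q1 (g * kJ⁻¹) (kJ * D * kJ⁻¹)
    rw [← abs_neg] at h
    have e : -q (g * kJ⁻¹ * (kJ * D * kJ⁻¹)) - -q (g * kJ⁻¹) = -(q (g * kJ⁻¹ * (kJ * D * kJ⁻¹)) - q (g * kJ⁻¹)) := by ring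
    rw [e]
    exact h
  · unfold rp
    rw [e2, e1 g E, e1 g D, ← hJ D, ← hJ E]
    exact hF.p2 _ _ _ (by rw [hJ]; exact hD)
  · unfold rq
    rw [e2, e1 g E, e1 g D, ← hJ D, ← hJ E]
    have h := hF.q2 (g * kJ⁻¹) (kJ * E * kJ⁻¹) (kJ * D * kJ⁻¹) (by rw [hJ]; exact hD)
    rw [← abs_neg] at h
    refine le_trans (le_of_eq ?_) h
    congr 1
    ring

theorem REV_flw (p q : SL(2, ℝ) → ℝ) (f : ℝ → SL(2, ℝ) → SL(2, ℝ)) (hF : Flw p q f) : Flw (rp p) (rq q) (rf f) := by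
  have hneg : ∀ t : ℝ, HasDerivAt (fun s : ℝ => -s) (-1) t := fun t => (hasDerivAt_id t).neg
  refine ⟨fun g => ?_, fun s t g => ?_, ?_, fun i t g => ?_, fun i t g => ?_⟩
  · unfold rf
    rw [neg_zero, hF.zero, inv_mul_cancel_right]
  · unfold rf
    rw [neg_add, hF.add, mul_inv_cancel_right]
  · have h1 : Continuous fun x : ℝ × SL(2, ℝ) => ((-x.1, x.2 * kJ⁻¹) : ℝ × SL(2, ℝ)) :=
      continuous_fst.neg.prodMk (continuous_snd.mul continuous_const)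
    exact (hF.cont.comp h1).mul continuous_const
  · have h := hF.d1 i (-t) (g * kJ⁻¹)
    have h3 : HasDerivAt (fun s => -((f (-s) (g * kJ⁻¹)).1 i 1))
        (-((-((f (-t) (g * kJ⁻¹)).1 i 0 * q (f (-t) (g * kJ⁻¹))) -
          (f (-t) (g * kJ⁻¹)).1 i 1 * (p (f (-t) (g * kJ⁻¹)) / 2)) * -1)) t :=
      (HasDerivAt.comp t h (hneg t)).neg
    have e1 : (fun s => (rf f s g).1 i 0) = fun s => -((f (-s) (g * kJ⁻¹)).1 i 1) := funext fun s => REV_e0 _ i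
    rw [e1]
    refine h3.congr_deriv ?_
    unfold rf
    rw [REV_e0, REV_e1, REV_rp, REV_rq]
    ring
  · have h := hF.d0 i (-t) (g * kJ⁻¹)
    have h3 : HasDerivAt (fun s => ((f (-s) (g * kJ⁻¹)).1 i 0))
        (((f (-t) (g * kJ⁻¹)).1 i 0 * (p (f (-t) (g * kJ⁻¹)) / 2) +
          (f (-t) (g * kJ⁻¹)).1 i 1 * q (f (-t) (g * kJ⁻¹))) * -1) t :=
      HasDerivAt.comp t h (hneg t)
    have e1 : (fun s => (rf f s g).1 i 1) = fun s => ((f (-s) (g * kJ⁻¹)).1 i 0) := funext fun s => REV_e1 _ i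
    rw [e1]
    refine h3.congr_deriv ?_
    unfold rf
    rw [REV_e0, REV_e1, REV_rp, REV_rq]
    ring

theorem REV_mp (h : SL(2, ℝ)) : MeasurePreserving (fun g : SL(2, ℝ) => g * h) mG mG :=
  ⟨(continuous_mul_right h).measurable, GRI GLC (GMG GLC) (GLI GLC (GMG GLC)) h⟩

theorem REV_proof (h1 : NMB_stmt) : REV_stmt := by
  refine ⟨REV_fld h1, REV_flw, fun Γ p q f hF => ?_⟩
  refine ⟨REV_flw p q f hF.toFlw, fun γ t g => ?_, fun t => ?_⟩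
  · unfold rf
    rw [mul_assoc (γ : SL(2, ℝ)) g kJ⁻¹, hF.inv, mul_assoc]
  · exact (REV_mp kJ).comp ((hF.mp (-t)).comp (REV_mp kJ⁻¹))

end

end Pool.Agent.VQE
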